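import Pool.Agent.R352.Towers

/-!
# Two exponential-logarithmic towers need not have an upper bound

Every element of `EL^(c)` is the value at `c` of a function which is analytic at `c` and belongs to a countable
family that does not depend on `c` (`Pool.Agent.R352.Towers.cov_EL`). Hence for all `a` outside a countable set only
countably many bases `c` have `a ∈ EL^(c)`, and only countably many numbers `b` lie in one of these towers.
-/

set_option autoImplicit false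

namespace Pool.Agent.Results.MP_21d915_nt.NoUpperBound

open Pool.Agent.R352.Towers

/-- There is a countable set `Z` such that for every `a` outside `Z` only countably many `b` have the property that some
tower contains both `EL^(a)` and `EL^(b)`. In particular there are `a` and `b` for which there is no such tower. -/
theorem result :
    (∃ Z : Set ℂ, Z.Countable ∧ ∀ a : ℂ, a ∉ Z →
      {b : ℂ | b ≠ 0 ∧ b ≠ 1 ∧ ∃ c : ℂ, c ≠ 0 ∧ c ≠ 1 ∧ EL a ⊆ EL c ∧ EL b ⊆ EL c}.Countable) ∧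
    ∃ a b : ℂ, a ≠ 0 ∧ a ≠ 1 ∧ b ≠ 0 ∧ b ≠ 1 ∧
      ¬ ∃ c : ℂ, c ≠ 0 ∧ c ≠ 1 ∧ EL a ⊆ EL c ∧ EL b ⊆ EL c := by
  obtain ⟨Z, hZ, h⟩ := countable_common
  have h1 : ∀ a : ℂ, a ∉ Z ∪ {0, 1} →
      {b : ℂ | b ≠ 0 ∧ b ≠ 1 ∧ ∃ c : ℂ, c ≠ 0 ∧ c ≠ 1 ∧ EL a ⊆ EL c ∧ EL b ⊆ EL c}.Countable := by
    intro a ha
    rw [Set.mem_union, not_or] at ha
    have ha0 : a ≠ 0 := fun h0 => ha.2 (by rw [h0]; exact Or.inl rfl)
    refine (h a ha.1).mono ?_
    rintro b ⟨hb0, -, c, h0, h1, h2, h3⟩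
    exact ⟨c, h0, h1, h2 (mem_EL_self ha0), h3 (mem_EL_self hb0)⟩
  have hc : (Z ∪ {0, 1} : Set ℂ).Countable := hZ.union (Set.to_countable _)
  refine ⟨⟨Z ∪ {0, 1}, hc, h1⟩, ?_⟩
  have hu : ∀ S : Set ℂ, S.Countable → ∃ x, x ∉ S := by
    intro S hS
    by_contra hcon
    push Not at hcon
    exact not_countable_complex (hS.mono fun x _ => hcon x)
  obtain ⟨a, ha⟩ := hu _ hc
  obtain ⟨b, hb⟩ := hu _ ((h1 a ha).union (Set.to_countable ({0, 1} : Set ℂ)))
  rw [Set.mem_union, not_or] at ha hb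
  have hb0 : b ≠ 0 := fun h0 => hb.2 (by rw [h0]; exact Or.inl rfl)
  have hb1 : b ≠ 1 := fun h0 => hb.2 (by rw [h0]; exact Or.inr rfl)
  refine ⟨a, b, fun h0 => ha.2 (by rw [h0]; exact Or.inl rfl), fun h0 => ha.2 (by rw [h0]; exact Or.inr rfl), hb0, hb1,
    fun hcon => hb.1 ⟨hb0, hb1, hcon⟩⟩

end Pool.Agent.Results.MP_21d915_nt.NoUpperBound
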